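import Pool.Agent.Helper14.MR.Cake

/-!
# MR: the part R14
-/

namespace Pool.Agent.Helper30.MR

open Set Pool.Agent.Helper14.MR

/-- the cell function of a finite set `T` -/
noncomputable def cf (T : Finset ℝ) (t : ℝ) : ℕ :=
  (T.filter (fun x => x < t)).card + (T.filter (fun x => x ≤ t)).card - 1

theorem le_card {T : Finset ℝ} (h0 : (0 : ℝ) ∈ T) {t : ℝ} (ht : 0 ≤ t) :
    1 ≤ (T.filter (fun x => x ≤ t)).card :=
  Finset.card_pos.2 ⟨0, Finset.mem_filter.2 ⟨h0, ht⟩⟩

theorem cf_lt {T : Finset ℝ} (h0 : (0 : ℝ) ∈ T) {s t m : ℝ} (hs : 0 ≤ s) (hst : s < t) (hm : m ∈ T)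
    (h1 : s ≤ m) (h2 : m ≤ t) : cf T s < cf T t := by
  have e1 := le_card h0 hs
  have a1 : (T.filter (fun x => x < s)).card ≤ (T.filter (fun x => x < t)).card :=
    Finset.card_le_card (Finset.monotone_filter_right _ (fun x _ hx => lt_trans hx hst))
  have a2 : (T.filter (fun x => x ≤ s)).card ≤ (T.filter (fun x => x ≤ t)).card :=
    Finset.card_le_card (Finset.monotone_filter_right _ (fun x _ hx => le_trans hx hst.le))
  have a3 : (T.filter (fun x => x < s)).card < (T.filter (fun x => x < t)).card ∨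
      (T.filter (fun x => x ≤ s)).card < (T.filter (fun x => x ≤ t)).card := by
    rcases lt_or_eq_of_le h1 with h | h
    · right
      apply Finset.card_lt_card
      refine ⟨Finset.monotone_filter_right _ (fun x _ hx => le_trans hx hst.le), fun hh => ?_⟩
      have := hh (Finset.mem_filter.2 ⟨hm, h2⟩)
      exact absurd (Finset.mem_filter.1 this).2 (not_le.2 h)
    · left
      apply Finset.card_lt_card
      refine ⟨Finset.monotone_filter_right _ (fun x _ hx => lt_trans hx hst), fun hh => ?_⟩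
      have := hh (Finset.mem_filter.2 ⟨hm, h ▸ hst⟩)
      exact absurd (Finset.mem_filter.1 this).2 (by rw [h]; exact lt_irrefl _)
  unfold cf
  omega

theorem cf_mono {T : Finset ℝ} {s t : ℝ} (hst : s ≤ t) : cf T s ≤ cf T t := by
  have a1 : (T.filter (fun x => x < s)).card ≤ (T.filter (fun x => x < t)).card :=
    Finset.card_le_card (Finset.monotone_filter_right _ (fun x _ hx => lt_of_lt_of_le hx hst))
  have a2 : (T.filter (fun x => x ≤ s)).card ≤ (T.filter (fun x => x ≤ t)).card :=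
    Finset.card_le_card (Finset.monotone_filter_right _ (fun x _ hx => le_trans hx hst))
  unfold cf
  omega

theorem cf_refl {T : Finset ℝ} (h0 : (0 : ℝ) ∈ T) (hsym : ∀ x ∈ T, 1 - x ∈ T) {t : ℝ}
    (ht : t ∈ Icc (0 : ℝ) 1) : cf T (1 - t) + cf T t = 2 * T.card - 2 := by
  have b1 : (T.filter (fun x => x < 1 - t)).card = (T.filter (fun x => ¬ x ≤ t)).card := by
    apply Finset.card_bij (fun x _ => 1 - x)
    · intro x hx
      rw [Finset.mem_filter] at hx ⊢
      exact ⟨hsym x hx.1, by linarith [hx.2]⟩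
    · intro x _ y _ hxy
      linarith
    · intro y hy
      rw [Finset.mem_filter] at hy
      exact ⟨1 - y, Finset.mem_filter.2 ⟨hsym y hy.1, by linarith [not_le.1 hy.2]⟩, by ring⟩
  have b2 : (T.filter (fun x => x ≤ 1 - t)).card = (T.filter (fun x => ¬ x < t)).card := by
    apply Finset.card_bij (fun x _ => 1 - x)
    · intro x hx
      rw [Finset.mem_filter] at hx ⊢
      exact ⟨hsym x hx.1, by linarith [hx.2]⟩
    · intro x _ y _ hxy
      linarith
    · intro y hy
      rw [Finset.mem_filter] at hy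
      exact ⟨1 - y, Finset.mem_filter.2 ⟨hsym y hy.1, by linarith [not_lt.1 hy.2]⟩, by ring⟩
  have b3 := Finset.card_filter_add_card_filter_not (s := T) (fun x => x ≤ t)
  have b4 := Finset.card_filter_add_card_filter_not (s := T) (fun x => x < t)
  have e1 := le_card h0 ht.1
  have e2 := le_card h0 (t := 1 - t) (by linarith [ht.2])
  unfold cf
  omega

theorem cf_near {T : Finset ℝ} (h0 : (0 : ℝ) ∈ T) (s : ℝ) (hs : 0 ≤ s) :
    ∃ ε > 0, ∀ t : ℝ, 0 ≤ t → |t - s| < ε → cf T t ≤ cf T s + 1 ∧ cf T s ≤ cf T t + 1 := by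
  obtain ⟨ε, hε, hT⟩ : ∃ ε > 0, ∀ x ∈ T, x ≠ s → ε ≤ |x - s| := by
    by_cases hne : (T.filter (fun x => x ≠ s)).Nonempty
    · obtain ⟨x, hx, hmin⟩ := Finset.exists_min_image _ (fun x => |x - s|) hne
      refine ⟨|x - s|, abs_pos.2 (sub_ne_zero.2 (Finset.mem_filter.1 hx).2), fun y hy hys => ?_⟩
      exact hmin y (Finset.mem_filter.2 ⟨hy, hys⟩)
    · refine ⟨1, one_pos, fun x hx hxs => ?_⟩
      exact absurd ⟨x, Finset.mem_filter.2 ⟨hx, hxs⟩⟩ hne
  refine ⟨ε, hε, fun t ht hts => ?_⟩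
  have hts' := abs_lt.1 hts
  have k1 : ∀ x ∈ T, x ≤ t → x ≤ s := by
    intro x hx hxt
    by_contra hlt
    push Not at hlt
    have h1 := hT x hx hlt.ne'
    rw [abs_of_pos (by linarith)] at h1
    linarith
  have k2 : ∀ x ∈ T, x < s → x < t := by
    intro x hx hxs
    have h1 := hT x hx hxs.ne
    rw [abs_of_neg (by linarith)] at h1
    linarith
  have c1 : (T.filter (fun x => x < t)).card ≤ (T.filter (fun x => x ≤ s)).card := by
    apply Finset.card_le_card
    intro x hx
    rw [Finset.mem_filter] at hx ⊢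
    exact ⟨hx.1, k1 x hx.1 hx.2.le⟩
  have c2 : (T.filter (fun x => x ≤ t)).card ≤ (T.filter (fun x => x ≤ s)).card := by
    apply Finset.card_le_card
    intro x hx
    rw [Finset.mem_filter] at hx ⊢
    exact ⟨hx.1, k1 x hx.1 hx.2⟩
  have c3 : (T.filter (fun x => x < s)).card ≤ (T.filter (fun x => x < t)).card := by
    apply Finset.card_le_card
    intro x hx
    rw [Finset.mem_filter] at hx ⊢
    exact ⟨hx.1, k2 x hx.1 hx.2⟩
  have c4 : (T.filter (fun x => x < s)).card ≤ (T.filter (fun x => x ≤ t)).card := by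
    apply Finset.card_le_card
    intro x hx
    rw [Finset.mem_filter] at hx ⊢
    exact ⟨hx.1, (k2 x hx.1 hx.2).le⟩
  have c5 : (T.filter (fun x => x ≤ s)).card ≤ (T.filter (fun x => x < s)).card + 1 := by
    have : T.filter (fun x => x ≤ s) ⊆ insert s (T.filter (fun x => x < s)) := by
      intro x hx
      rw [Finset.mem_filter] at hx
      rw [Finset.mem_insert, Finset.mem_filter]
      rcases lt_or_eq_of_le hx.2 with h | h
      · exact Or.inr ⟨hx.1, h⟩
      · exact Or.inl h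
    exact (Finset.card_le_card this).trans (Finset.card_insert_le _ _)
  have e1 := le_card h0 ht
  have e2 := le_card h0 hs
  unfold cf
  constructor <;> omega

/-- R14. -/
theorem R14 (k : ℕ) (I : Fin k → Set ℝ) (hI : ∀ i, (I i).OrdConnected) :
    ∃ (n : ℕ) (c : ℝ → ℕ), 1 ≤ n ∧ Cell n c ∧
      ∀ i, ∀ s ∈ Icc (0 : ℝ) 1, ∀ t ∈ Icc (0 : ℝ) 1, c s = c t → (s ∈ I i ↔ t ∈ I i) := by
  classical
  let p : Fin k → ℝ := fun i => sSup (I i ∩ Icc 0 1)
  let q : Fin k → ℝ := fun i => sInf (I i ∩ Icc 0 1)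
  let T₀ : Finset ℝ := {0, 1} ∪ Finset.univ.image p ∪ Finset.univ.image q ∪
    Finset.univ.image (fun i => 1 - p i) ∪ Finset.univ.image (fun i => 1 - q i)
  let T : Finset ℝ := T₀.filter (fun x => x ∈ Icc (0 : ℝ) 1)
  have hT0 : (0 : ℝ) ∈ T := by simp [T, T₀]
  have hT1 : (1 : ℝ) ∈ T := by simp [T, T₀]
  have hTI : ∀ x ∈ T, x ∈ Icc (0 : ℝ) 1 := fun x hx => (Finset.mem_filter.1 hx).2
  have hmem : ∀ x, x ∈ T₀ ↔ (x = 0 ∨ x = 1 ∨ (∃ i, p i = x) ∨ (∃ i, q i = x) ∨
      (∃ i, 1 - p i = x) ∨ ∃ i, 1 - q i = x) := by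
    intro x
    simp only [T₀, Finset.mem_union, Finset.mem_insert, Finset.mem_singleton, Finset.mem_image,
      Finset.mem_univ, true_and]
    tauto
  have hsym : ∀ x ∈ T, 1 - x ∈ T := by
    intro x hx
    have h1 := hTI x hx
    have h2 := (hmem x).1 (Finset.mem_filter.1 hx).1
    refine Finset.mem_filter.2 ⟨(hmem _).2 ?_, ⟨by linarith [h1.2], by linarith [h1.1]⟩⟩
    rcases h2 with h | h | ⟨i, h⟩ | ⟨i, h⟩ | ⟨i, h⟩ | ⟨i, h⟩
    · right; left; rw [h]; ring
    · left; rw [h]; ring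
    · right; right; right; right; left; exact ⟨i, by rw [h]⟩
    · right; right; right; right; right; exact ⟨i, by rw [h]⟩
    · right; right; left; exact ⟨i, by linarith⟩
    · right; right; right; left; exact ⟨i, by linarith⟩
  have hcard : 2 ≤ T.card := by
    have : ({0, 1} : Finset ℝ) ⊆ T := by
      intro x hx
      rw [Finset.mem_insert, Finset.mem_singleton] at hx
      rcases hx with rfl | rfl
      · exact hT0
      · exact hT1
    have h2 : ({0, 1} : Finset ℝ).card = 2 := Finset.card_pair (by norm_num)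
    rw [← h2]
    exact Finset.card_le_card this
  have hzero : cf T 0 = 0 := by
    have h1 : (T.filter (fun x => x < 0)).card = 0 := by
      rw [Finset.card_eq_zero, Finset.filter_eq_empty_iff]
      intro x hx
      exact not_lt.2 (hTI x hx).1
    have h2 : (T.filter (fun x => x ≤ 0)).card ≤ 1 := by
      rw [Finset.card_le_one]
      intro a ha b hb
      rw [Finset.mem_filter] at ha hb
      rw [le_antisymm ha.2 (hTI a ha.1).1, le_antisymm hb.2 (hTI b hb.1).1]
    unfold cf
    omega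
  have hone : cf T 1 = 2 * T.card - 2 := by
    have := cf_refl hT0 hsym (t := 1) ⟨zero_le_one, le_refl _⟩
    rw [sub_self, hzero, zero_add] at this
    exact this
  have hnear : ∀ s ∈ Icc (0 : ℝ) 1, ∃ ε > 0, ∀ t ∈ Icc (0 : ℝ) 1, |t - s| < ε →
      cf T t ≤ cf T s + 1 ∧ cf T s ≤ cf T t + 1 := by
    intro s hs
    obtain ⟨ε, hε, h⟩ := cf_near hT0 s hs.1
    exact ⟨ε, hε, fun t ht hts => h t ht.1 hts⟩
  refine ⟨2 * T.card - 2, cf T, by omega, ⟨?_, ?_, ?_, ?_, hnear⟩, ?_⟩
  · intro t ht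
    constructor
    · intro h
      by_contra hne
      have h1 : 0 < t := lt_of_le_of_ne ht.1 (Ne.symm hne)
      have := cf_lt hT0 le_rfl h1 hT0 le_rfl h1.le
      omega
    · rintro rfl
      exact hzero
  · intro t ht
    exact cf_refl hT0 hsym ht
  · intro s _ t _ hst
    exact cf_mono hst
  · intro i hi
    by_contra hcon
    push Not at hcon
    have hi0 : 0 < i := by
      rcases Nat.eq_zero_or_pos i with h | h
      · exact absurd (by rw [h, hzero]) (hcon 0 ⟨le_rfl, zero_le_one⟩)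
      · exact h
    have hi1 : i < cf T 1 := by
      have := hcon 1 ⟨zero_le_one, le_rfl⟩
      omega
    let A : Set ℝ := {t | t ∈ Icc (0 : ℝ) 1 ∧ cf T t < i}
    have hA0 : (0 : ℝ) ∈ A := ⟨⟨le_rfl, zero_le_one⟩, by rw [hzero]; exact hi0⟩
    have hAb : BddAbove A := ⟨1, fun x hx => hx.1.2⟩
    set s := sSup A with hs
    have hs0 : 0 ≤ s := le_csSup hAb hA0
    have hs1 : s ≤ 1 := csSup_le ⟨0, hA0⟩ (fun x hx => hx.1.2)
    obtain ⟨ε, hε, hn⟩ := hnear s ⟨hs0, hs1⟩
    rcases lt_trichotomy (cf T s) i with h | h | h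
    · have hs1' : s < 1 := by
        rcases lt_or_eq_of_le hs1 with h' | h'
        · exact h'
        · rw [h'] at h; omega
      obtain ⟨t, ht1, ht2⟩ := exists_between (lt_min hs1' (by linarith : s < s + ε))
      have ht3 : t < 1 := lt_of_lt_of_le ht2 (min_le_left _ _)
      have ht4 : t < s + ε := lt_of_lt_of_le ht2 (min_le_right _ _)
      have htI : t ∈ Icc (0 : ℝ) 1 := ⟨by linarith, ht3.le⟩
      have h5 := hn t htI (by rw [abs_of_pos (by linarith)]; linarith)
      have h6 := hcon t htI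
      have h7 : t ∈ A := ⟨htI, by omega⟩
      exact absurd (le_csSup hAb h7) (not_le.2 ht1)
    · exact hcon s ⟨hs0, hs1⟩ h
    · obtain ⟨t, htA, ht⟩ := exists_lt_of_lt_csSup ⟨0, hA0⟩ (by linarith : s - ε < s)
      have h5 := hn t htA.1 (by
        have := le_csSup hAb htA
        rw [abs_lt]; constructor <;> linarith)
      have h6 := htA.2
      have h7 := hcon t htA.1
      omega
  · -- adapted
    have key : ∀ i, ∀ s ∈ Icc (0 : ℝ) 1, ∀ t ∈ Icc (0 : ℝ) 1, s < t → cf T s = cf T t →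
        (s ∈ I i ↔ t ∈ I i) := by
      intro i s hs t ht hst hc
      by_contra hne
      have hbA : BddAbove (I i ∩ Icc 0 1) := ⟨1, fun x hx => hx.2.2⟩
      have hbB : BddBelow (I i ∩ Icc 0 1) := ⟨0, fun x hx => hx.2.1⟩
      by_cases hsI : s ∈ I i
      · have htI : t ∉ I i := fun h => hne ⟨fun _ => h, fun _ => hsI⟩
        have hub : ∀ y ∈ I i ∩ Icc 0 1, y ≤ t := by
          intro y hy
          by_contra hlt
          push Not at hlt
          exact htI ((hI i).out hsI hy.1 ⟨hst.le, hlt.le⟩)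
        have h1 : s ≤ p i := le_csSup hbA ⟨hsI, hs⟩
        have h2 : p i ≤ t := csSup_le ⟨s, hsI, hs⟩ hub
        have h3 : p i ∈ T := Finset.mem_filter.2 ⟨(hmem _).2 (Or.inr (Or.inr (Or.inl ⟨i, rfl⟩))),
          ⟨by linarith [hs.1], by linarith [ht.2]⟩⟩
        exact absurd hc (cf_lt hT0 hs.1 hst h3 h1 h2).ne
      · have htI : t ∈ I i := by
          by_contra h
          exact hne ⟨fun h' => absurd h' hsI, fun h' => absurd h' h⟩
        have hlb : ∀ y ∈ I i ∩ Icc 0 1, s ≤ y := by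
          intro y hy
          by_contra hlt
          push Not at hlt
          exact hsI ((hI i).out hy.1 htI ⟨hlt.le, hst.le⟩)
        have h1 : q i ≤ t := csInf_le hbB ⟨htI, ht⟩
        have h2 : s ≤ q i := le_csInf ⟨t, htI, ht⟩ hlb
        have h3 : q i ∈ T := Finset.mem_filter.2
          ⟨(hmem _).2 (Or.inr (Or.inr (Or.inr (Or.inl ⟨i, rfl⟩)))),
          ⟨by linarith [hs.1], by linarith [ht.2]⟩⟩
        exact absurd hc (cf_lt hT0 hs.1 hst h3 h2 h1).ne
    intro i s hs t ht hc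
    rcases lt_trichotomy s t with h | h | h
    · exact key i s hs t ht h hc
    · rw [h]
    · exact (key i t ht s hs h hc.symm).symm

end Pool.Agent.Helper30.MR
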