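import Pool.Agent.Helper14.MR.Defs

/-!
# MR: the parts R10 and R10'
-/

namespace Pool.Agent.Helper30.MR

open Pool.Agent.Helper14.MR

theorem univ4 : ∀ o u v w : Fin 4, o ≠ u → o ≠ v → o ≠ w → u ≠ v → u ≠ w → v ≠ w →
    (Finset.univ : Finset (Fin 4)) = {o, u, v, w} := by decide

theorem lab {o u v w : Fin 4} (h : Dist o u v w) (a : Fin 4) : a = o ∨ a = u ∨ a = v ∨ a = w := by
  have h1 := univ4 o u v w h.ou h.ov h.ow h.uv h.uw h.vw
  have h2 : a ∈ (Finset.univ : Finset (Fin 4)) := Finset.mem_univ a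
  rw [h1] at h2
  simpa using h2

theorem sum4 {n : ℕ} {o u v w : Fin 4} (h : Dist o u v w) (x : Pt n) :
    x.1 o + x.1 u + x.1 v + x.1 w = n := by
  have h1 := univ4 o u v w h.ou h.ov h.ow h.uv h.uw h.vw
  have h2 : ∑ a : Fin 4, x.1 a = n := by
    rw [Fin.sum_univ_four]; exact x.2.sum
  rw [h1, Finset.sum_insert, Finset.sum_insert, Finset.sum_insert, Finset.sum_singleton] at h2
  · omega
  · simpa using h.vw
  · simp only [Finset.mem_insert, Finset.mem_singleton, not_or]; exact ⟨h.uv, h.uw⟩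
  · simp only [Finset.mem_insert, Finset.mem_singleton, not_or]; exact ⟨h.ou, h.ov, h.ow⟩

theorem pt_ext {n : ℕ} {o u v w : Fin 4} (h : Dist o u v w) {x y : Pt n}
    (h1 : x.1 o = y.1 o) (h2 : x.1 u = y.1 u) (h3 : x.1 v = y.1 v) (h4 : x.1 w = y.1 w) :
    x = y := by
  apply Subtype.ext
  funext a
  rcases lab h a with rfl | rfl | rfl | rfl <;> assumption

/-- the possible moves, in terms of the four coordinates -/
theorem adj4 {n : ℕ} {o u v w : Fin 4} (h : Dist o u v w) {x y : Pt n} (hxy : Adj x y) :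
    (x.1 v = 0 ∧ y.1 v = 0 ∧ x.1 w = 0 ∧ y.1 w = 0 ∧
      (x.1 o = y.1 o + 1 ∨ y.1 o = x.1 o + 1)) ∨
    (x.1 u = 0 ∧ y.1 u = 0 ∧ x.1 w = 0 ∧ y.1 w = 0 ∧
      (x.1 o = y.1 o + 1 ∨ y.1 o = x.1 o + 1)) ∨
    (x.1 u = 0 ∧ y.1 u = 0 ∧ x.1 v = 0 ∧ y.1 v = 0 ∧
      (x.1 o = y.1 o + 1 ∨ y.1 o = x.1 o + 1)) ∨
    (x.1 o = 0 ∧ y.1 o = 0 ∧ x.1 w = 0 ∧ y.1 w = 0 ∧
      (x.1 u = y.1 u + 1 ∨ y.1 u = x.1 u + 1)) ∨
    (x.1 o = 0 ∧ y.1 o = 0 ∧ x.1 v = 0 ∧ y.1 v = 0 ∧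
      (x.1 u = y.1 u + 1 ∨ y.1 u = x.1 u + 1)) ∨
    (x.1 o = 0 ∧ y.1 o = 0 ∧ x.1 u = 0 ∧ y.1 u = 0 ∧
      (x.1 v = y.1 v + 1 ∨ y.1 v = x.1 v + 1)) := by
  obtain ⟨a, b, hab, h1, h2, h3⟩ := hxy
  have d1 := h.ou
  have d2 := h.ov
  have d3 := h.ow
  have d4 := h.uv
  have d5 := h.uw
  have d6 := h.vw
  rcases lab h a with ha | ha | ha | ha <;> rcases lab h b with hb | hb | hb | hb <;>
    subst ha <;> first | exact absurd hb.symm hab | skip
  · subst hb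
    exact Or.inl ⟨(h3 v d2.symm d4.symm).1, (h3 v d2.symm d4.symm).2, (h3 w d3.symm d5.symm).1,
      (h3 w d3.symm d5.symm).2, Or.inl h1⟩
  · subst hb
    exact Or.inr (Or.inl ⟨(h3 u d1.symm d4).1, (h3 u d1.symm d4).2, (h3 w d3.symm d6.symm).1,
      (h3 w d3.symm d6.symm).2, Or.inl h1⟩)
  · subst hb
    exact Or.inr (Or.inr (Or.inl ⟨(h3 u d1.symm d5).1, (h3 u d1.symm d5).2, (h3 v d2.symm d6).1,
      (h3 v d2.symm d6).2, Or.inl h1⟩))
  · subst hb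
    exact Or.inl ⟨(h3 v d4.symm d2.symm).1, (h3 v d4.symm d2.symm).2, (h3 w d5.symm d3.symm).1,
      (h3 w d5.symm d3.symm).2, Or.inr h2⟩
  · subst hb
    exact Or.inr (Or.inr (Or.inr (Or.inl ⟨(h3 o d1 d2).1, (h3 o d1 d2).2, (h3 w d5.symm d6.symm).1,
      (h3 w d5.symm d6.symm).2, Or.inl h1⟩)))
  · subst hb
    exact Or.inr (Or.inr (Or.inr (Or.inr (Or.inl ⟨(h3 o d1 d3).1, (h3 o d1 d3).2,
      (h3 v d4.symm d6).1, (h3 v d4.symm d6).2, Or.inl h1⟩))))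
  · subst hb
    exact Or.inr (Or.inl ⟨(h3 u d4 d1.symm).1, (h3 u d4 d1.symm).2, (h3 w d6.symm d3.symm).1,
      (h3 w d6.symm d3.symm).2, Or.inr h2⟩)
  · subst hb
    exact Or.inr (Or.inr (Or.inr (Or.inl ⟨(h3 o d2 d1).1, (h3 o d2 d1).2, (h3 w d6.symm d5.symm).1,
      (h3 w d6.symm d5.symm).2, Or.inr h2⟩)))
  · subst hb
    exact Or.inr (Or.inr (Or.inr (Or.inr (Or.inr ⟨(h3 o d2 d3).1, (h3 o d2 d3).2,
      (h3 u d4 d5).1, (h3 u d4 d5).2, Or.inl h1⟩))))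
  · subst hb
    exact Or.inr (Or.inr (Or.inl ⟨(h3 u d5 d1.symm).1, (h3 u d5 d1.symm).2, (h3 v d6 d2.symm).1,
      (h3 v d6 d2.symm).2, Or.inr h2⟩))
  · subst hb
    exact Or.inr (Or.inr (Or.inr (Or.inr (Or.inl ⟨(h3 o d3 d1).1, (h3 o d3 d1).2,
      (h3 v d6 d4.symm).1, (h3 v d6 d4.symm).2, Or.inr h2⟩))))
  · subst hb
    exact Or.inr (Or.inr (Or.inr (Or.inr (Or.inr ⟨(h3 o d3 d2).1, (h3 o d3 d2).2,
      (h3 u d5 d4).1, (h3 u d5 d4).2, Or.inr h2⟩))))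

/-- a connected set avoiding `o` which has points in and out of the open edge `o u` contains
the vertex `u` -/
theorem has_u {n : ℕ} {o u v w : Fin 4} (h : Dist o u v w) {P : Set (Pt n)}
    (hP : Conn Adj P) (hPo : ∀ x ∈ P, x.1 o < n) {x₀ : Pt n} (hx₀ : x₀ ∈ P) (h1 : 0 < x₀.1 o)
    (h2 : 0 < x₀.1 u) (hP1 : ∃ x ∈ P, ¬ (0 < x.1 o ∧ 0 < x.1 u)) :
    ∃ z ∈ P, z.1 u = n := by
  by_contra hcon
  push Not at hcon
  have := hP {x | 0 < x.1 o ∧ 0 < x.1 u} ⟨x₀, hx₀, h1, h2⟩ (by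
    rintro x hx ⟨hxo, hxu⟩ y hy hxy
    have sx := sum4 h x
    have sy := sum4 h y
    have e1 := hPo x hx
    have e2 := hPo y hy
    have e3 := hcon y hy
    change 0 < y.1 o ∧ 0 < y.1 u
    rcases adj4 h hxy with h | h | h | h | h | h <;> omega)
  obtain ⟨x, hx, hn⟩ := hP1
  exact hn (this hx)

/-- R10. -/
theorem R10 {n : ℕ} (o u v w : Fin 4) (h : Dist o u v w) (P Q : Set (Pt n))
    (hP : Conn Adj P) (hQ : Conn Adj Q) (hPo : ∀ x ∈ P, x.1 o < n) (hQo : ∀ x ∈ Q, x.1 o < n)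
    (hPu : ∀ x ∈ P, 0 < x.1 u) (hP1 : ∃ x ∈ P, x.1 o = 0)
    (hQ1 : ∃ x ∈ Q, ¬ (0 < x.1 o ∧ 0 < x.1 u)) (hPQ : ∃ x ∈ P, x ∈ Q) :
    ∃ x ∈ P, x ∈ Q ∧ x.1 o = 0 := by
  obtain ⟨x, hxP, hxQ⟩ := hPQ
  by_cases h0 : x.1 o = 0
  · exact ⟨x, hxP, hxQ, h0⟩
  have h1 : 0 < x.1 o := Nat.pos_of_ne_zero h0
  obtain ⟨z, hz, hzu⟩ := has_u h hP hPo hxP h1 (hPu x hxP) (by
    obtain ⟨y, hy, hy0⟩ := hP1
    exact ⟨y, hy, fun hh => by omega⟩)
  obtain ⟨z', hz', hzu'⟩ := has_u h hQ hQo hxQ h1 (hPu x hxP) hQ1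
  have s1 := sum4 h z
  have s2 := sum4 h z'
  have : z = z' := pt_ext h (by omega) (by omega) (by omega) (by omega)
  subst this
  exact ⟨z, hz, hz', by omega⟩

/-- R10'. -/
theorem R10' {n : ℕ} (o u v w : Fin 4) (h : Dist o u v w) (P : Set (Pt n)) (Q : Fin 3 → Set (Pt n))
    (hP : Conn Adj P) (hPo : ∀ x ∈ P, x.1 o < n)
    (hPu : ∀ x ∈ P, 0 < x.1 u) (hP1 : ∃ x ∈ P, x.1 o = 0)
    (hQ : ∀ i, Conn Adj (Q i)) (hQo : ∀ i, ∀ x ∈ Q i, x.1 o < n)
    (hQ1 : ∀ i, ∃ x ∈ Q i, ¬ (0 < x.1 o ∧ 0 < x.1 u))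
    (hdisj : ∀ i j, i ≠ j → Disjoint (Q i) (Q j)) (hPQ : ∀ i, ∃ x ∈ P, x ∈ Q i) :
    ∃ i, (∃ x ∈ Q i, x.1 o = 0) ∧ (∀ x ∈ Q i, x.1 o = 0 → x ∈ P) ∧
      ∃ x ∈ P, x.1 o = 0 ∧ x ∉ Q i := by
  have hR : ∀ i, ∃ x ∈ P, x ∈ Q i ∧ x.1 o = 0 := fun i =>
    R10 o u v w h P (Q i) hP (hQ i) hPo (hQo i) hPu hP1 (hQ1 i) (hPQ i)
  have hnot : ∀ i, ∃ x ∈ P, x.1 o = 0 ∧ x ∉ Q i := by
    intro i
    obtain ⟨j, hj⟩ : ∃ j : Fin 3, j ≠ i := by
      revert i; decide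
    obtain ⟨x, hx, hxj, hx0⟩ := hR j
    exact ⟨x, hx, hx0, fun hxi => Set.disjoint_left.1 (hdisj j i hj) hxj hxi⟩
  by_contra hcon
  push Not at hcon
  have hout : ∀ i, ∃ y ∈ Q i, y.1 o = 0 ∧ y ∉ P := by
    intro i
    by_contra hc
    push Not at hc
    obtain ⟨x, hx, hxi, hx0⟩ := hR i
    obtain ⟨z, hz, hz0, hzi⟩ := hnot i
    exact hzi (hcon i ⟨x, hxi, hx0⟩ (fun y hy hy0 => hc y hy hy0) z hz hz0)
  -- the ends of the trace of `P`
  let pos : Pt n → ℤ := fun x => (x.1 w : ℤ) - (x.1 v : ℤ)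
  have hsupp : ∀ x ∈ P, x.1 o = 0 → (x.1 v = 0 ∨ x.1 w = 0) := by
    intro x hx h0
    have h1 := x.2.supp u v w h.uv h.uw h.vw
    have h2 := hPu x hx
    omega
  have hbd : ∀ x : Pt n, -(n : ℤ) ≤ pos x ∧ pos x ≤ n := by
    intro x
    have := sum4 h x
    simp only [pos]
    omega
  obtain ⟨eR, heR, heR0, hmax⟩ : ∃ e ∈ P, e.1 o = 0 ∧ ∀ x ∈ P, x.1 o = 0 → pos x ≤ pos e := by
    obtain ⟨x₀, hx₀, hx₀0⟩ := hP1
    have hfin : ({p : ℤ | ∃ x ∈ P, x.1 o = 0 ∧ pos x = p}).Finite := by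
      apply (Set.finite_Icc (-(n : ℤ)) n).subset
      rintro p ⟨x, -, -, rfl⟩
      exact ⟨(hbd x).1, (hbd x).2⟩
    obtain ⟨p, ⟨x, hx, hx0, rfl⟩, hp⟩ := Set.exists_max_image _ id hfin ⟨pos x₀, x₀, hx₀, hx₀0, rfl⟩
    exact ⟨x, hx, hx0, fun y hy hy0 => hp (pos y) ⟨y, hy, hy0, rfl⟩⟩
  obtain ⟨eL, heL, heL0, hmin⟩ : ∃ e ∈ P, e.1 o = 0 ∧ ∀ x ∈ P, x.1 o = 0 → pos e ≤ pos x := by
    obtain ⟨x₀, hx₀, hx₀0⟩ := hP1
    have hfin : ({p : ℤ | ∃ x ∈ P, x.1 o = 0 ∧ pos x = p}).Finite := by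
      apply (Set.finite_Icc (-(n : ℤ)) n).subset
      rintro p ⟨x, -, -, rfl⟩
      exact ⟨(hbd x).1, (hbd x).2⟩
    obtain ⟨p, ⟨x, hx, hx0, rfl⟩, hp⟩ := Set.exists_min_image _ id hfin ⟨pos x₀, x₀, hx₀, hx₀0, rfl⟩
    exact ⟨x, hx, hx0, fun y hy hy0 => hp (pos y) ⟨y, hy, hy0, rfl⟩⟩
  -- equal positions
  have hpos : ∀ x ∈ P, x.1 o = 0 → ∀ y : Pt n, y.1 o = 0 → (y.1 v = 0 ∨ y.1 w = 0) →
      pos x = pos y → x = y := by
    intro x hx hx0 y hy0 hy3 hxy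
    have s1 := sum4 h x
    have s2 := sum4 h y
    have h1 := hsupp x hx hx0
    have h2 := hPu x hx
    simp only [pos] at hxy
    exact pt_ext h (by omega) (by omega) (by omega) (by omega)
  -- leaving `P` inside the triangle happens at the ends
  have hend : ∀ x ∈ P, x.1 o = 0 → ∀ y : Pt n, y.1 o = 0 → y ∉ P → Adj x y → x = eL ∨ x = eR := by
    intro x hx hx0 y hy0 hyP hxy
    have s1 := sum4 h x
    have s2 := sum4 h y
    have h2 := hPu x hx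
    have hyvw : y.1 v = 0 ∨ y.1 w = 0 := by
      rcases adj4 h hxy with h | h | h | h | h | h <;> omega
    have hstep : pos y = pos x + 1 ∨ pos y = pos x - 1 := by
      have h1 := hsupp x hx hx0
      simp only [pos]
      rcases adj4 h hxy with h | h | h | h | h | h <;> omega
    rcases hstep with hs | hs
    · right
      by_contra hne
      have hlt : pos x < pos eR := by
        rcases lt_or_eq_of_le (hmax x hx hx0) with h | h
        · exact h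
        · exact absurd (hpos x hx hx0 eR heR0 (hsupp eR heR heR0) h) hne
      have := hP {z | pos z ≤ pos x} ⟨x, hx, le_refl (pos x)⟩ (by
        intro z hz hzx z' hz' hzz'
        change pos z' ≤ pos x
        by_contra hgt
        have hzx' : pos z ≤ pos x := hzx
        have t1 := sum4 h z
        have t2 := sum4 h z'
        have t3 := hPu z hz
        have t4 := hPu z' hz'
        have hz'0 : z'.1 o = 0 ∧ pos z' = pos y := by
          simp only [pos] at hgt hzx' hs ⊢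
          rcases adj4 h hzz' with h | h | h | h | h | h <;> omega
        have := hpos z' hz' hz'0.1 y hy0 hyvw hz'0.2
        exact hyP (this ▸ hz'))
      have h3 : pos eR ≤ pos x := this heR
      omega
    · left
      by_contra hne
      have hlt : pos eL < pos x := by
        rcases lt_or_eq_of_le (hmin x hx hx0) with h | h
        · exact h
        · exact absurd (hpos x hx hx0 eL heL0 (hsupp eL heL heL0) h.symm) hne
      have := hP {z | pos x ≤ pos z} ⟨x, hx, le_refl (pos x)⟩ (by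
        intro z hz hzx z' hz' hzz'
        change pos x ≤ pos z'
        by_contra hgt
        have hzx' : pos x ≤ pos z := hzx
        have t1 := sum4 h z
        have t2 := sum4 h z'
        have t3 := hPu z hz
        have t4 := hPu z' hz'
        have hz'0 : z'.1 o = 0 ∧ pos z' = pos y := by
          simp only [pos] at hgt hzx' hs ⊢
          rcases adj4 h hzz' with h | h | h | h | h | h <;> omega
        have := hpos z' hz' hz'0.1 y hy0 hyvw hz'0.2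
        exact hyP (this ▸ hz'))
      have h3 : pos x ≤ pos eL := this heL
      omega
  -- every `Q i` contains one of the ends
  have hkey : ∀ i, eL ∈ Q i ∨ eR ∈ Q i := by
    intro i
    by_contra hc
    push Not at hc
    obtain ⟨y, hy, hy0, hyP⟩ := hout i
    obtain ⟨x, hx, hxi, hx0⟩ := hR i
    have := hQ i {z | (z.1 o = 0 ∧ z ∈ P) ∨ (0 < z.1 o ∧ 0 < z.1 u ∧ ∃ e ∈ P, e.1 u = n)}
      ⟨x, hxi, Or.inl ⟨hx0, hx⟩⟩ (by
        intro z hz hzW z' hz' hzz'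
        have t1 := sum4 h z
        have t2 := sum4 h z'
        have t5 := hQo i z' hz'
        rcases hzW with ⟨hz0, hzP⟩ | ⟨hz0, hzu, e, heP, heu⟩
        · have t3 := hPu z hzP
          by_cases hz'0 : z'.1 o = 0
          · left
            refine ⟨hz'0, ?_⟩
            by_contra hz'P
            rcases hend z hzP hz0 z' hz'0 hz'P hzz' with he | he
            · exact hc.1 (he ▸ hz)
            · exact hc.2 (he ▸ hz)
          · right
            refine ⟨by omega, ?_, z, hzP, ?_⟩ <;>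
              (rcases adj4 h hzz' with h | h | h | h | h | h <;> omega)
        · by_cases hz'0 : z'.1 o = 0
          · left
            refine ⟨hz'0, ?_⟩
            have t6 := sum4 h e
            have : e = z' := by
              apply pt_ext h <;> (rcases adj4 h hzz' with h | h | h | h | h | h <;> omega)
            exact this ▸ heP
          · right
            refine ⟨by omega, ?_, e, heP, heu⟩
            rcases adj4 h hzz' with h | h | h | h | h | h <;> omega)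
    rcases this hy with h1 | h1
    · exact hyP h1.2
    · omega
  -- pigeonhole
  have hp : ∀ i j, i ≠ j → ∀ e, e ∈ Q i → e ∈ Q j → False := fun i j hij e hi hj =>
    Set.disjoint_left.1 (hdisj i j hij) hi hj
  rcases hkey 0 with h0 | h0 <;> rcases hkey 1 with h1 | h1 <;> rcases hkey 2 with h2 | h2
  · exact hp 0 1 (by decide) _ h0 h1
  · exact hp 0 1 (by decide) _ h0 h1
  · exact hp 0 2 (by decide) _ h0 h2
  · exact hp 1 2 (by decide) _ h1 h2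
  · exact hp 1 2 (by decide) _ h1 h2
  · exact hp 0 2 (by decide) _ h0 h2
  · exact hp 0 1 (by decide) _ h0 h1
  · exact hp 0 1 (by decide) _ h0 h1

end Pool.Agent.Helper30.MR
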